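import Mathlib
import Pool.Agent.H989R3.CMF.Final

set_option autoImplicit false

/-!
# Rings F-isomorphic to the coordinate ring of the variety of one-parameter subgroups of the
Frobenius kernels of a Borel subgroup of `SL_4` are not Cohen-Macaulay, for every height `r ≥ 4`
-/

open Pool.Agent.H989R3.CMF

namespace Pool.Agent.Results.MP_5f3851_al.BorelSlFour

theorem result (k : Type) [Field k] (r : ℕ) (hr : 4 ≤ r) (H : Type) [CommRing H]
    [IsNoetherianRing H]
    (ψ : H →+* MvPolynomial (Fin r × Fin 4 × Fin 4) k ⧸ (commIdeal k r).radical)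
    (hker : ∀ x, ψ x = 0 → IsNilpotent x) (himg : ∀ y, ∃ n, 0 < n ∧ ∃ x, ψ x = y ^ n) :
    ¬ IsCM H :=
  main r hr ψ (fun x hx => hker x hx) (fun y => by
    obtain ⟨n, hn, x, hx⟩ := himg y
    exact ⟨n, hn, x, hx⟩)

end Pool.Agent.Results.MP_5f3851_al.BorelSlFour
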